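import Mathlib

/-! # Branches of a curve with support cones

`branch`: an arc which starts at `0` and moves in the right half plane, and each point of which has a
support cone (slope `1/6`) whose axis is steep, is near `0` the graph of a Lipschitz function with
constant less than `1`. -/

set_option autoImplicit false
open Complex Set Topology Metric

namespace Pool.Agent.H77.Sq

/-- the real scalar product -/
def ip (a b : ℂ) : ℝ := a.re * b.re + a.im * b.im

lemma ip_cont {α : Type*} [TopologicalSpace α] {f g : α → ℂ} (hf : Continuous f)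
    (hg : Continuous g) : Continuous fun x => ip (f x) (g x) := by
  unfold ip
  exact ((continuous_re.comp hf).mul (continuous_re.comp hg)).add
    ((continuous_im.comp hf).mul (continuous_im.comp hg))

lemma norm_sq' (a : ℂ) : ‖a‖ ^ 2 = a.re ^ 2 + a.im ^ 2 := by
  rw [← Complex.normSq_eq_norm_sq, Complex.normSq_apply]; ring

/-- `m` is a support normal of `g` at `t` with steep direction -/
def Sn (g : ℝ → ℂ) (δ t : ℝ) (m : ℂ) : Prop := ‖m‖ = 1 ∧ |m.re| ≤ 11 / 20 ∧
  ∀ z ∈ Ico 0 δ, ip m (g z - g t) ≤ ‖g z - g t‖ / 6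

lemma im_big {m : ℂ} (h1 : ‖m‖ = 1) (h2 : |m.re| ≤ 11 / 20) : 167 / 200 ≤ |m.im| := by
  have h3 := norm_sq' m
  rw [h1] at h3
  have h4 : m.re ^ 2 ≤ (11 / 20) ^ 2 := by
    rw [← sq_abs]; exact pow_le_pow_left₀ (abs_nonneg _) h2 2
  have h5 : (167 / 200 : ℝ) ^ 2 ≤ |m.im| ^ 2 := by rw [sq_abs]; nlinarith
  exact (pow_le_pow_iff_left₀ (by norm_num) (abs_nonneg _) two_ne_zero).1 h5

/-- slope bound at a point with an upward normal -/
lemma slope {m e : ℂ} (h1 : ‖m‖ = 1) (h2 : |m.re| ≤ 11 / 20) (h0 : 0 ≤ m.im)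
    (h : ip m e ≤ ‖e‖ / 6) : e.im ≤ 99 / 100 * |e.re| := by
  by_contra hc
  push Not at hc
  have hm := im_big h1 h2
  rw [abs_of_nonneg h0] at hm
  have he := norm_sq' e
  have hr : 0 ≤ |e.re| := abs_nonneg _
  have hi : 0 < e.im := lt_of_le_of_lt (by positivity) hc
  have h3 : e.re ^ 2 = |e.re| ^ 2 := (sq_abs _).symm
  have h4 : ‖e‖ ≤ 1.422 * e.im := by
    have : ‖e‖ ^ 2 ≤ (1.422 * e.im) ^ 2 := by
      rw [he, h3]; nlinarith
    exact (pow_le_pow_iff_left₀ (norm_nonneg _) (by positivity) two_ne_zero).1 this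
  have h5 : -(11 / 20 * |e.re|) ≤ m.re * e.re := by
    have : |m.re * e.re| ≤ 11 / 20 * |e.re| := by
      rw [abs_mul]; exact mul_le_mul_of_nonneg_right h2 hr
    exact (abs_le.1 this).1
  have h6 : 167 / 200 * e.im ≤ m.im * e.im := mul_le_mul_of_nonneg_right hm hi.le
  unfold ip at h
  nlinarith

lemma slope' {m e : ℂ} (h1 : ‖m‖ = 1) (h2 : |m.re| ≤ 11 / 20) (h0 : m.im ≤ 0)
    (h : ip m e ≤ ‖e‖ / 6) : -e.im ≤ 99 / 100 * |e.re| := by
  have := slope (m := (starRingEnd ℂ) m) (e := (starRingEnd ℂ) e) (by simpa using h1)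
    (by simpa using h2) (by simpa using h0) (by
      unfold ip at h ⊢
      simpa using h)
  simpa using this

lemma closed_type {g : ℝ → ℂ} (hg : Continuous g) (δ x y : ℝ) (S : Set ℂ) (hS : IsClosed S) :
    IsClosed {t | t ∈ Icc x y ∧ ∃ m ∈ S, Sn g δ t m} := by
  have hc : IsCompact {p : ℝ × ℂ | p.1 ∈ Icc x y ∧ p.2 ∈ S ∧ Sn g δ p.1 p.2} := by
    refine IsCompact.of_isClosed_subset ((isCompact_Icc (a := x) (b := y)).prod
      (isCompact_closedBall (0 : ℂ) 1)) ?_ ?_
    · refine (isClosed_Icc.preimage continuous_fst).inter ((hS.preimage continuous_snd).inter ?_)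
      refine (isClosed_eq continuous_snd.norm continuous_const).inter
        ((isClosed_le (continuous_re.comp continuous_snd).abs continuous_const).inter ?_)
      have e : {p : ℝ × ℂ | ∀ z ∈ Ico 0 δ, ip p.2 (g z - g p.1) ≤ ‖g z - g p.1‖ / 6} =
          ⋂ z ∈ Ico 0 δ, {p : ℝ × ℂ | ip p.2 (g z - g p.1) ≤ ‖g z - g p.1‖ / 6} := by
        ext p; simp
      change IsClosed {p : ℝ × ℂ | ∀ z ∈ Ico 0 δ, ip p.2 (g z - g p.1) ≤ ‖g z - g p.1‖ / 6}
      rw [e]
      refine isClosed_iInter fun z => isClosed_iInter fun _ => isClosed_le ?_ ?_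
      · exact ip_cont continuous_snd (continuous_const.sub (hg.comp continuous_fst))
      · exact (continuous_const.sub (hg.comp continuous_fst)).norm.div_const _
    · rintro ⟨t, m⟩ ⟨h1, -, h2, -⟩
      exact ⟨h1, by simp [h2]⟩
  have : {t | t ∈ Icc x y ∧ ∃ m ∈ S, Sn g δ t m} =
      Prod.fst '' {p : ℝ × ℂ | p.1 ∈ Icc x y ∧ p.2 ∈ S ∧ Sn g δ p.1 p.2} := by
    ext t
    constructor
    · rintro ⟨h1, m, hm, h2⟩; exact ⟨(t, m), ⟨h1, hm, h2⟩, rfl⟩
    · rintro ⟨⟨t', m⟩, ⟨h1, hm, h2⟩, rfl⟩; exact ⟨h1, m, hm, h2⟩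
  rw [this]
  exact (hc.image continuous_fst).isClosed

/-- no three points of the arc on a vertical line -/
lemma no_three {g : ℝ → ℂ} {δ : ℝ} (hinj : InjOn g (Ico 0 δ))
    (hn : ∀ t ∈ Ioo 0 δ, ∃ m, Sn g δ t m) {a b d : ℝ} (ha : a ∈ Ioo 0 δ) (hb : b ∈ Ioo 0 δ)
    (hd : d ∈ Ioo 0 δ) (hab : a < b) (hbd : b < d) (e1 : (g a).re = (g b).re)
    (e2 : (g b).re = (g d).re) : False := by
  have mid : ∀ p q r : ℝ, p ∈ Ioo 0 δ → q ∈ Ioo 0 δ → r ∈ Ioo 0 δ → (g p).re = (g q).re →
      (g q).re = (g r).re → (g p).im < (g q).im → (g q).im < (g r).im → False := by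
    intro p q r hp hq hr h1 h2 h3 h4
    obtain ⟨m, m1, m2, m3⟩ := hn q hq
    have k1 := m3 r ⟨hr.1.le, hr.2⟩
    have k2 := m3 p ⟨hp.1.le, hp.2⟩
    have n1 : ‖g r - g q‖ = (g r).im - (g q).im := by
      have : g r - g q = (((g r).im - (g q).im : ℝ) : ℂ) * I := by
        apply Complex.ext <;> simp [h2]
      rw [this, norm_mul, norm_I, mul_one, Complex.norm_real, Real.norm_eq_abs, abs_of_pos]
      linarith
    have n2 : ‖g p - g q‖ = (g q).im - (g p).im := by
      have : g p - g q = (((g p).im - (g q).im : ℝ) : ℂ) * I := by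
        apply Complex.ext <;> simp [h1]
      rw [this, norm_mul, norm_I, mul_one, Complex.norm_real, Real.norm_eq_abs, abs_of_neg]
      · ring
      · linarith
    rw [n1] at k1
    rw [n2] at k2
    unfold ip at k1 k2
    simp only [sub_re, sub_im, h1, h2, sub_self, mul_zero, zero_add] at k1 k2
    have hm := im_big m1 m2
    have p1 : 0 < (g r).im - (g q).im := by linarith
    have p2 : 0 < (g q).im - (g p).im := by linarith
    have q1 : m.im ≤ 1 / 6 := by
      by_contra hcc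
      push Not at hcc
      nlinarith
    have q2 : -m.im ≤ 1 / 6 := by
      by_contra hcc
      push Not at hcc
      nlinarith
    have : |m.im| ≤ 1 / 6 := abs_le.2 ⟨by linarith, q1⟩
    linarith
  have ne : ∀ p q : ℝ, p ∈ Ioo 0 δ → q ∈ Ioo 0 δ → (g p).re = (g q).re → p < q →
      (g p).im ≠ (g q).im := by
    intro p q hp hq h h' he
    exact h'.ne (hinj ⟨hp.1.le, hp.2⟩ ⟨hq.1.le, hq.2⟩ (Complex.ext h he))
  have n1 := ne a b ha hb e1 hab
  have n2 := ne b d hb hd e2 hbd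
  have n3 := ne a d ha hd (e1.trans e2) (hab.trans hbd)
  rcases lt_or_gt_of_ne n1 with h1 | h1 <;> rcases lt_or_gt_of_ne n2 with h2 | h2 <;>
    rcases lt_or_gt_of_ne n3 with h3 | h3
  · exact mid a b d ha hb hd e1 e2 h1 h2
  · linarith
  · exact mid a d b ha hd hb (e1.trans e2) e2.symm h3 h2
  · exact mid d a b hd ha hb (e1.trans e2).symm e1 h3 h1
  · exact mid b a d hb ha hd e1.symm (e1.trans e2) h1 h3
  · exact mid b d a hb hd ha e2 (e1.trans e2).symm h2 h3
  · linarith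
  · exact mid d b a hd hb ha e2.symm e1.symm h2 h1

theorem branch {g : ℝ → ℂ} {δ : ℝ} (hδ : 0 < δ) (hg : Continuous g) (h0 : g 0 = 0)
    (hinj : InjOn g (Ico 0 δ)) (hpos : ∀ t ∈ Ioo 0 δ, 0 < (g t).re)
    (hn : ∀ t ∈ Ioo 0 δ, ∃ m, Sn g δ t m) :
    ∃ δ' > 0, δ' ≤ δ ∧ ∀ x y, 0 < x → x < y → y < δ' → 0 < (g y - g x).re ∧
      |(g y - g x).im| ≤ 99 / 100 * (g y - g x).re := by
  have hu : Continuous fun t => (g t).re := continuous_re.comp hg
  have hy0 : δ / 2 ∈ Ioo 0 δ := ⟨by linarith, by linarith⟩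
  -- small values near 0
  obtain ⟨ε, ε0, hε⟩ : ∃ ε > 0, ∀ t, |t| < ε → (g t).re < (g (δ / 2)).re := by
    have h1 : {t | (g t).re < (g (δ / 2)).re} ∈ 𝓝 (0 : ℝ) := by
      refine (isOpen_lt hu continuous_const).mem_nhds ?_
      simp only [mem_ofPred_eq, h0, zero_re]
      exact hpos _ hy0
    obtain ⟨ε, ε0, h2⟩ := Metric.mem_nhds_iff.1 h1
    exact ⟨ε, ε0, fun t ht => h2 (by simpa using ht)⟩
  obtain ⟨δ', hδ', d1, d2⟩ : ∃ δ' > 0, δ' ≤ ε ∧ δ' ≤ δ / 2 :=
    ⟨min ε (δ / 2), by positivity, min_le_left _ _, min_le_right _ _⟩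
  have noDec : ∀ x y, 0 < x → x < y → y < δ' → ¬ (g y).re < (g x).re := by
    intro x y hx hxy hy hlt
    obtain ⟨l, l1, l2⟩ := exists_between hlt
    have y0 : 0 < (g y).re := hpos y ⟨by linarith, by linarith⟩
    have big : (g x).re < (g (δ / 2)).re := hε x (by rw [abs_of_pos hx]; linarith)
    obtain ⟨t1, ht1, e1⟩ := intermediate_value_Ioo hx.le hu.continuousOn
      (show l ∈ Ioo (g 0).re (g x).re by rw [h0]; exact ⟨by simpa using by linarith, l2⟩)
    obtain ⟨t2, ht2, e2⟩ := intermediate_value_Ioo' hxy.le hu.continuousOn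
      (show l ∈ Ioo (g y).re (g x).re from ⟨l1, l2⟩)
    obtain ⟨t3, ht3, e3⟩ := intermediate_value_Ioo (by linarith : y ≤ δ / 2) hu.continuousOn
      (show l ∈ Ioo (g y).re (g (δ / 2)).re from ⟨l1, by linarith⟩)
    simp only at e1 e2 e3
    exact no_three hinj hn (a := t1) (b := t2) (d := t3) ⟨ht1.1, by linarith [ht1.2]⟩
      ⟨by linarith [ht2.1], by linarith [ht2.2]⟩ ⟨by linarith [ht3.1], by linarith [ht3.2]⟩
      (by linarith [ht1.2, ht2.1]) (by linarith [ht2.2, ht3.1]) (e1.trans e2.symm)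
      (e2.trans e3.symm)
  have inc : ∀ x y, 0 < x → x < y → y < δ' → (g x).re < (g y).re := by
    intro x y hx hxy hy
    refine lt_of_le_of_ne (not_lt.1 (noDec x y hx hxy hy)) fun he => ?_
    have a1 := not_lt.1 (noDec x ((x + y) / 2) hx (by linarith) (by linarith))
    have a2 := not_lt.1 (noDec ((x + y) / 2) y (by linarith) (by linarith) hy)
    refine no_three hinj hn (a := x) (b := (x + y) / 2) (d := y) ⟨hx, by linarith⟩
      ⟨by linarith, by linarith⟩ ⟨by linarith, by linarith⟩ (by linarith) (by linarith)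
      (by linarith) (by linarith)
  refine ⟨δ', hδ', by linarith, fun x y hx hxy hy => ?_⟩
  have hlt := inc x y hx hxy hy
  refine ⟨by rw [sub_re]; linarith, ?_⟩
  -- the two types
  have mem : ∀ t ∈ Icc x y, t ∈ Ioo 0 δ := fun t ht => ⟨by linarith [ht.1], by linarith [ht.2]⟩
  obtain ⟨U, hU⟩ : ∃ U, U = {t | t ∈ Icc x y ∧ ∃ m ∈ {m : ℂ | 0 ≤ m.im}, Sn g δ t m} := ⟨_, rfl⟩
  obtain ⟨Dn, hD⟩ : ∃ U, U = {t | t ∈ Icc x y ∧ ∃ m ∈ {m : ℂ | m.im ≤ 0}, Sn g δ t m} := ⟨_, rfl⟩
  have cU : IsClosed U := by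
    rw [hU]; exact closed_type hg δ x y _ (isClosed_le continuous_const continuous_im)
  have cD : IsClosed Dn := by
    rw [hD]; exact closed_type hg δ x y _ (isClosed_le continuous_im continuous_const)
  have cov : Icc x y ⊆ U ∪ Dn := by
    intro t ht
    obtain ⟨m, hm⟩ := hn t (mem t ht)
    rcases le_total 0 m.im with h | h
    · left; rw [hU]; exact ⟨ht, m, h, hm⟩
    · right; rw [hD]; exact ⟨ht, m, h, hm⟩
  have fU : ∀ t ∈ U, ∀ z ∈ Icc x y, (g z - g t).im ≤ 99 / 100 * |(g z - g t).re| := by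
    intro t ht z hz
    rw [hU] at ht
    obtain ⟨h1, m, h2, h3, h4, h5⟩ := ht
    have := mem z hz
    exact slope h3 h4 h2 (h5 z ⟨this.1.le, this.2⟩)
  have fD : ∀ t ∈ Dn, ∀ z ∈ Icc x y, -(g z - g t).im ≤ 99 / 100 * |(g z - g t).re| := by
    intro t ht z hz
    rw [hD] at ht
    obtain ⟨h1, m, h2, h3, h4, h5⟩ := ht
    have := mem z hz
    exact slope' h3 h4 h2 (h5 z ⟨this.1.le, this.2⟩)
  have mx : x ∈ Icc x y := ⟨le_rfl, hxy.le⟩
  have my : y ∈ Icc x y := ⟨hxy.le, le_rfl⟩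
  have er : |(g y - g x).re| = (g y - g x).re := abs_of_pos (by rw [sub_re]; linarith)
  have er' : |(g x - g y).re| = (g y - g x).re := by
    rw [← abs_neg, ← neg_re, neg_sub, er]
  by_cases hI : (Icc x y ∩ (U ∩ Dn)).Nonempty
  · obtain ⟨t, ht, tU, tD⟩ := hI
    have le1 : (g x).re ≤ (g t).re := by
      rcases eq_or_lt_of_le ht.1 with h | h
      · rw [h]
      · exact (inc x t hx h (by linarith [ht.2])).le
    have le2 : (g t).re ≤ (g y).re := by
      rcases eq_or_lt_of_le ht.2 with h | h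
      · rw [h]
      · exact (inc t y (by linarith [ht.1]) h hy).le
    have a1 := fU t tU x mx
    have a2 := fD t tD x mx
    have a3 := fU t tU y my
    have a4 := fD t tD y my
    have r1 : |(g x - g t).re| = (g t).re - (g x).re := by
      rw [sub_re, abs_sub_comm, abs_of_nonneg (by linarith)]
    have r2 : |(g y - g t).re| = (g y).re - (g t).re := by
      rw [sub_re, abs_of_nonneg (by linarith)]
    rw [r1] at a1 a2
    rw [r2] at a3 a4
    simp only [sub_im] at a1 a2 a3 a4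
    rw [abs_le, sub_im, sub_re]
    constructor <;> linarith
  · have hpre : IsPreconnected (Icc x y) := isPreconnected_Icc
    rw [isPreconnected_closed_iff] at hpre
    by_cases hUn : (Icc x y ∩ U).Nonempty
    · by_cases hDn : (Icc x y ∩ Dn).Nonempty
      · exact absurd (hpre U Dn cU cD cov hUn hDn) hI
      · have xU : x ∈ U := (cov mx).resolve_right fun h => hDn ⟨x, mx, h⟩
        have yU : y ∈ U := (cov my).resolve_right fun h => hDn ⟨y, my, h⟩
        have a1 := fU x xU y my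
        have a2 := fU y yU x mx
        rw [er] at a1
        rw [er'] at a2
        simp only [sub_im] at a1 a2
        rw [abs_le, sub_im]
        constructor <;> linarith
    · have xD : x ∈ Dn := (cov mx).resolve_left fun h => hUn ⟨x, mx, h⟩
      have yD : y ∈ Dn := (cov my).resolve_left fun h => hUn ⟨y, my, h⟩
      have a1 := fD x xD y my
      have a2 := fD y yD x mx
      rw [er] at a1
      rw [er'] at a2
      simp only [sub_im] at a1 a2
      rw [abs_le, sub_im]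
      constructor <;> linarith

end Pool.Agent.H77.Sq
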