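import Pool.Agent.H77.Sq.Branch

set_option autoImplicit false
open Complex Set Topology Metric

namespace Pool.Agent.H77.Sq

lemma conj_mul_re (a b : ℂ) : ((starRingEnd ℂ) a * b).re = ip a b := by
  unfold ip; simp

lemma ip_comm (a b : ℂ) : ip a b = ip b a := by unfold ip; ring

lemma ip_mul {w : ℂ} (hw : ‖w‖ = 1) (a b : ℂ) : ip (w * a) (w * b) = ip a b := by
  have h := norm_sq' w
  rw [hw] at h
  unfold ip
  simp only [mul_re, mul_im]
  have : (w.re * a.re - w.im * a.im) * (w.re * b.re - w.im * b.im) +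
    (w.re * a.im + w.im * a.re) * (w.re * b.im + w.im * b.re) =
    (w.re ^ 2 + w.im ^ 2) * (a.re * b.re + a.im * b.im) := by ring
  rw [this, ← h]; ring

/-- a compact set of directions which is not in the open circular arc `⟨v, n⟩ > 1/6` of any `v`, and
has some `e` with `⟨e, n⟩ ≤ 1/6` for all its elements, has a frame -/
lemma frame {N : Set ℂ} (hN : IsCompact N) (hne : N.Nonempty) (h1 : ∀ n ∈ N, ‖n‖ = 1) (e0 : ℂ)
    (he0 : ‖e0‖ = 1) (he : ∀ n ∈ N, ip e0 n ≤ 1 / 6)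
    (hno : ∀ v : ℂ, ‖v‖ = 1 → ∃ n ∈ N, ip v n ≤ 1 / 6) :
    ∃ w : ℂ, ∃ b q : ℝ, ‖w‖ = 1 ∧ |b| ≤ 1 / 6 ∧ (∀ n ∈ N, (w * n).re ≤ b) ∧ 0 ≤ q ∧
      b ^ 2 + q ^ 2 = 1 ∧ (∃ n ∈ N, (w * n).re = b ∧ (w * n).im = q) ∧
      ∃ n ∈ N, (w * n).re = b ∧ (w * n).im = -q := by
  obtain ⟨ψ, hψ⟩ : ∃ ψ : ℂ → ℝ, ψ = fun n => Complex.arg (-((starRingEnd ℂ) e0 * n)) := ⟨_, rfl⟩
  have nz : ∀ n ∈ N, ‖-((starRingEnd ℂ) e0 * n)‖ = 1 := fun n hn => by
    rw [norm_neg, norm_mul, RCLike.norm_conj, he0, h1 n hn, one_mul]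
  have nexp : ∀ n ∈ N, -((starRingEnd ℂ) e0 * n) = Complex.exp (ψ n * I) := fun n hn => by
    have := Complex.norm_mul_exp_arg_mul_I (-((starRingEnd ℂ) e0 * n))
    rw [nz n hn, ofReal_one, one_mul] at this
    rw [hψ]; exact this.symm
  have ncos : ∀ n ∈ N, Real.cos (ψ n) = -ip e0 n := fun n hn => by
    have := congrArg Complex.re (nexp n hn)
    rw [Complex.exp_ofReal_mul_I_re, neg_re, conj_mul_re] at this
    exact this.symm
  have cψ : ContinuousOn ψ N := by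
    rw [hψ]
    intro n hn
    have hs : -((starRingEnd ℂ) e0 * n) ∈ slitPlane := by
      by_contra hh
      rw [Complex.mem_slitPlane_iff] at hh
      push Not at hh
      have h2 := norm_sq' (-((starRingEnd ℂ) e0 * n))
      rw [nz n hn, hh.2] at h2
      have h3 : (-((starRingEnd ℂ) e0 * n)).re = -ip e0 n := by rw [neg_re, conj_mul_re]
      rw [h3] at h2
      have h4 := hh.1
      rw [h3] at h4
      have h5 := he n hn
      nlinarith
    have hc : ContinuousAt (fun n : ℂ => -((starRingEnd ℂ) e0 * n)) n := by fun_prop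
    exact (ContinuousAt.comp (f := fun n : ℂ => -((starRingEnd ℂ) e0 * n)) (x := n)
      (Complex.continuousAt_arg hs) hc).continuousWithinAt
  obtain ⟨nM, hnM, hM⟩ := hN.exists_isMaxOn hne cψ
  obtain ⟨nm, hnm, hm⟩ := hN.exists_isMinOn hne cψ
  have hM' : ∀ n ∈ N, ψ n ≤ ψ nM := fun n hn => hM hn
  have hm' : ∀ n ∈ N, ψ nm ≤ ψ n := fun n hn => hm hn
  have bnd : ∀ n, -Real.pi < ψ n ∧ ψ n ≤ Real.pi := fun n => by
    rw [hψ]; exact ⟨Complex.neg_pi_lt_arg _, Complex.arg_le_pi _⟩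
  obtain ⟨mid, hmid⟩ : ∃ mid, mid = (ψ nM + ψ nm) / 2 := ⟨_, rfl⟩
  obtain ⟨β, hβ⟩ : ∃ β, β = (ψ nM - ψ nm) / 2 := ⟨_, rfl⟩
  have β0 : 0 ≤ β := by have := hM' nm hnm; rw [hβ]; linarith
  have βpi : β ≤ Real.pi := by have := bnd nM; have := bnd nm; rw [hβ]; linarith
  obtain ⟨w, hw⟩ : ∃ w : ℂ, w = (starRingEnd ℂ) e0 * Complex.exp (-(mid * I)) := ⟨_, rfl⟩
  have wn : ∀ n ∈ N, w * n = -Complex.exp (((ψ n - mid : ℝ) : ℂ) * I) := fun n hn => by
    have h2 := nexp n hn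
    have : w * n = -(-((starRingEnd ℂ) e0 * n)) * Complex.exp (-(mid * I)) := by rw [hw]; ring
    rw [this, h2, neg_mul, ← Complex.exp_add]
    congr 2
    push_cast; ring
  have w1 : ‖w‖ = 1 := by
    rw [hw, norm_mul, RCLike.norm_conj, he0, one_mul]
    have : -(mid * I : ℂ) = ((-mid : ℝ) : ℂ) * I := by push_cast; ring
    rw [this, Complex.norm_exp_ofReal_mul_I]
  have wre : ∀ n ∈ N, (w * n).re = -Real.cos (ψ n - mid) := fun n hn => by
    rw [wn n hn, neg_re, Complex.exp_ofReal_mul_I_re]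
  have key : ∀ n ∈ N, Real.cos β ≤ Real.cos (ψ n - mid) := fun n hn => by
    have a1 := hM' n hn
    have a2 := hm' n hn
    rw [← Real.cos_abs (ψ n - mid)]
    refine Real.cos_le_cos_of_nonneg_of_le_pi (abs_nonneg _) βpi ?_
    rw [abs_le, hβ, hmid]
    constructor <;> linarith
  refine ⟨w, -Real.cos β, Real.sin β, w1, ?_, ?_, Real.sin_nonneg_of_nonneg_of_le_pi β0 βpi, ?_,
    ⟨nm, hnm, ?_⟩, ⟨nM, hnM, ?_⟩⟩
  · rw [abs_neg, abs_le]
    constructor
    · -- cos β ≥ -1/6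
      have hx : ∃ n ∈ N, β ≤ |ψ n| := by
        by_contra hcc
        push Not at hcc
        have a1 := abs_lt.1 (hcc nM hnM)
        have a2 := abs_lt.1 (hcc nm hnm)
        rw [hβ] at a1 a2
        linarith
      obtain ⟨n, hn, hb⟩ := hx
      have a1 := ncos n hn
      have a2 := he n hn
      have a3 : Real.cos |ψ n| ≤ Real.cos β := by
        refine Real.cos_le_cos_of_nonneg_of_le_pi β0 ?_ hb
        rw [abs_le]; exact ⟨(bnd n).1.le, (bnd n).2⟩
      rw [Real.cos_abs] at a3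
      linarith
    · obtain ⟨n, hn, hh⟩ := hno (-(starRingEnd ℂ) w) (by rw [norm_neg, RCLike.norm_conj, w1])
      have a1 : ip (-(starRingEnd ℂ) w) n = -(w * n).re := by
        unfold ip; simp; ring
      rw [a1, wre n hn] at hh
      have := key n hn
      linarith
  · intro n hn
    rw [wre n hn]
    have := key n hn
    linarith
  · rw [neg_sq]; exact Real.cos_sq_add_sin_sq β
  · have e : ψ nm - mid = -β := by rw [hβ, hmid]; ring
    rw [wre nm hnm, e, Real.cos_neg, wn nm hnm, e, neg_im, Complex.exp_ofReal_mul_I_im,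
      Real.sin_neg, neg_neg]
    exact ⟨rfl, rfl⟩
  · have e : ψ nM - mid = β := by rw [hβ, hmid]; ring
    rw [wre nM hnM, e, wn nM hnM, e, neg_im, Complex.exp_ofReal_mul_I_im]
    exact ⟨rfl, rfl⟩

end Pool.Agent.H77.Sq
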