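import Pool.Agent.H77.Sq.Frame
import Pool.Graph.R_pool_sql_team_seeded_63374d34.N919.Cusp.Fin

/-! # The local structure of a curve with support cones -/

set_option autoImplicit false
open Complex Set Topology Metric

namespace Pool.Agent.H77.Sq

open Pool.Agent.N919.Cusp Pool.Agent.Y535.PEG

/-- unit support normals at `x`, with respect to the arc over `K` -/
def Nr (c : ℝ → ℂ) (K : Set ℝ) (x : ℝ) : Set ℂ :=
  {n | ‖n‖ = 1 ∧ ∀ y ∈ K, ip n (c y - c x) ≤ ‖c y - c x‖ / 6}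

lemma nr_closed {c : ℝ → ℂ} (hc : Continuous c) (K : Set ℝ) (a b : ℝ) (S : Set ℂ)
    (hS : IsClosed S) : IsCompact {p : ℝ × ℂ | p.1 ∈ Icc a b ∧ p.2 ∈ S ∧ p.2 ∈ Nr c K p.1} := by
  refine IsCompact.of_isClosed_subset ((isCompact_Icc (a := a) (b := b)).prod
      (isCompact_closedBall (0 : ℂ) 1)) ?_ ?_
  · refine (isClosed_Icc.preimage continuous_fst).inter ((hS.preimage continuous_snd).inter ?_)
    refine (isClosed_eq continuous_snd.norm continuous_const).inter ?_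
    have e : {p : ℝ × ℂ | ∀ y ∈ K, ip p.2 (c y - c p.1) ≤ ‖c y - c p.1‖ / 6} =
        ⋂ y ∈ K, {p : ℝ × ℂ | ip p.2 (c y - c p.1) ≤ ‖c y - c p.1‖ / 6} := by
      ext p; simp
    change IsClosed {p : ℝ × ℂ | ∀ y ∈ K, ip p.2 (c y - c p.1) ≤ ‖c y - c p.1‖ / 6}
    rw [e]
    refine isClosed_iInter fun z => isClosed_iInter fun _ => isClosed_le ?_ ?_
    · exact ip_cont continuous_snd (continuous_const.sub (hc.comp continuous_fst))
    · exact (continuous_const.sub (hc.comp continuous_fst)).norm.div_const _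
  · rintro ⟨t, m⟩ ⟨h1, -, h2, -⟩
    exact ⟨h1, by simp [h2]⟩

lemma tube {c : ℝ → ℂ} (hc : Continuous c) {K : Set ℝ} {a b s : ℝ} {V : Set ℂ}
    (hV : IsOpen V) (h : Nr c K s ⊆ V) :
    ∃ δ > 0, ∀ x ∈ Icc a b, |x - s| < δ → Nr c K x ⊆ V := by
  have hF := ((nr_closed hc K a b Vᶜ hV.isClosed_compl).image continuous_fst).isClosed
  have hs : s ∉ Prod.fst '' {p : ℝ × ℂ | p.1 ∈ Icc a b ∧ p.2 ∈ Vᶜ ∧ p.2 ∈ Nr c K p.1} := by
    rintro ⟨⟨t, m⟩, ⟨-, h2, h3⟩, rfl⟩
    exact h2 (h h3)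
  obtain ⟨δ, δ0, hδ⟩ := Metric.mem_nhds_iff.1 (hF.isOpen_compl.mem_nhds hs)
  refine ⟨δ, δ0, fun x hx hxs n hn => ?_⟩
  by_contra hcc
  exact hδ (show x ∈ Metric.ball s δ by simpa [Real.dist_eq] using hxs) ⟨(x, n), ⟨hx, hcc, hn⟩, rfl⟩

/-- local monotonicity from one direction -/
lemma mon_of {c : ℝ → ℂ} (hc : Continuous c) {s δ : ℝ} (hδ : 0 < δ) {K : Set ℝ}
    (hK : ∀ x, |x - s| < δ → x ∈ K) (hinj : ∀ x ∈ K, ∀ y ∈ K, c x = c y → x = y) {v : ℂ}
    (hv : ‖v‖ = 1) (hn : ∀ x, |x - s| < δ → ∃ n ∈ Nr c K x, 1 / 6 < ip v n) : Mon c s := by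
  have v2 := norm_sq' v
  rw [hv] at v2
  have hne : ∀ x y, |x - s| < δ → |y - s| < δ → x < y → ip (I * v) (c y - c x) ≠ 0 := by
    intro x y hx hy hxy h0
    have hxy' : c y - c x ≠ 0 := fun h => hxy.ne' (hinj y (hK y hy) x (hK x hx) (sub_eq_zero.1 h))
    obtain ⟨e, he⟩ : ∃ e, e = c y - c x := ⟨_, rfl⟩
    obtain ⟨t, ht⟩ : ∃ t, t = ip v e := ⟨_, rfl⟩
    rw [← he] at h0 hxy'
    have e1 : e.re = t * v.re := by
      unfold ip at h0 ht
      simp only [mul_re, mul_im, I_re, I_im, zero_mul, one_mul, zero_sub, zero_add] at h0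
      rw [ht]
      linear_combination e.re * v2 - v.im * h0
    have e2 : e.im = t * v.im := by
      unfold ip at h0 ht
      simp only [mul_re, mul_im, I_re, I_im, zero_mul, one_mul, zero_sub, zero_add] at h0
      rw [ht]
      linear_combination e.im * v2 + v.re * h0
    have ee : e = (t : ℂ) * v := by apply Complex.ext <;> simp [e1, e2]
    have en : ‖e‖ = |t| := by rw [ee, norm_mul, hv, mul_one, Complex.norm_real, Real.norm_eq_abs]
    obtain ⟨n, n1, n2⟩ := hn x hx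
    obtain ⟨m, m1, m2⟩ := hn y hy
    have k1 := n1.2 y (hK y hy)
    have k2 := m1.2 x (hK x hx)
    rw [← he, en] at k1
    have e3 : c x - c y = -e := by rw [he]; ring
    rw [e3, norm_neg, en] at k2
    have q1 : ip n e = t * ip v n := by unfold ip; rw [e1, e2]; ring
    have q2 : ip m (-e) = -(t * ip v m) := by unfold ip; simp only [neg_re, neg_im]; rw [e1, e2]; ring
    rw [q1] at k1
    rw [q2] at k2
    rcases lt_trichotomy t 0 with h | h | h
    · rw [abs_of_neg h] at k2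
      nlinarith
    · rw [h] at en
      simp only [abs_zero, norm_eq_zero] at en
      exact hxy' en
    · rw [abs_of_pos h] at k1
      nlinarith
  obtain ⟨T, hT⟩ : ∃ T : Set (ℝ × ℝ), T = {p | p.1 ∈ Ioo (s - δ) (s + δ) ∧
      p.2 ∈ Ioo (s - δ) (s + δ) ∧ p.1 < p.2} := ⟨_, rfl⟩
  have hconv : Convex ℝ T := by
    rw [hT]
    have a1 : Convex ℝ {p : ℝ × ℝ | p.1 ∈ Ioo (s - δ) (s + δ)} :=
      (convex_Ioo (s - δ) (s + δ)).linear_preimage (LinearMap.fst ℝ ℝ ℝ)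
    have a2 : Convex ℝ {p : ℝ × ℝ | p.2 ∈ Ioo (s - δ) (s + δ)} :=
      (convex_Ioo (s - δ) (s + δ)).linear_preimage (LinearMap.snd ℝ ℝ ℝ)
    have a3 : Convex ℝ {p : ℝ × ℝ | p.1 < p.2} := by
      intro p hp q hq a b ha hb hab
      simp only [mem_ofPred_eq, Prod.fst_add, Prod.smul_fst, Prod.snd_add, Prod.smul_snd,
        smul_eq_mul] at *
      rcases eq_or_lt_of_le ha with h | h
      · have : b = 1 := by linarith
        rw [← h, this]; linarith
      · nlinarith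
    exact a1.inter (a2.inter a3)
  have hcont : Continuous fun p : ℝ × ℝ => ip (I * v) (c p.2 - c p.1) :=
    ip_cont continuous_const ((hc.comp continuous_snd).sub (hc.comp continuous_fst))
  have hpre := (hconv.isPreconnected).image _ hcont.continuousOn
  have mem : ∀ x y, |x - s| < δ → |y - s| < δ → x < y → (x, y) ∈ T := fun x y hx hy hxy => by
    rw [hT]
    have h1 := abs_lt.1 hx
    have h2 := abs_lt.1 hy
    exact ⟨⟨by simp only; linarith, by simp only; linarith⟩,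
      ⟨by simp only; linarith, by simp only; linarith⟩, hxy⟩
  have memT : ∀ p ∈ T, |p.1 - s| < δ ∧ |p.2 - s| < δ ∧ p.1 < p.2 := fun p hp => by
    rw [hT] at hp
    obtain ⟨h1, h2, h3⟩ := hp
    exact ⟨abs_lt.2 ⟨by linarith [h1.1], by linarith [h1.2]⟩,
      abs_lt.2 ⟨by linarith [h2.1], by linarith [h2.2]⟩, h3⟩
  have hne' : ∀ p ∈ T, ip (I * v) (c p.2 - c p.1) ≠ 0 := fun p hp => by
    obtain ⟨h1, h2, h3⟩ := memT p hp
    exact hne _ _ h1 h2 h3
  have hs1 : |s - s| < δ := by simpa using hδ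
  have hs2 : |s + δ / 2 - s| < δ := by
    rw [add_sub_cancel_left, abs_of_pos (by linarith)]; linarith
  have p0 := mem s (s + δ / 2) hs1 hs2 (by linarith)
  have ord := hpre.ordConnected
  rcases lt_or_gt_of_ne (hne' _ p0) with h | h
  · refine ⟨δ, hδ, -(starRingEnd ℂ) (I * v), fun x y hx hy hxy => ?_⟩
    have p1 := mem x y hx hy hxy
    rw [neg_mul, neg_re, conj_mul_re]
    by_contra hcc
    push Not at hcc
    have h0 : (0 : ℝ) ∈ (fun p : ℝ × ℝ => ip (I * v) (c p.2 - c p.1)) '' T :=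
      ord.out ⟨_, p0, rfl⟩ ⟨_, p1, rfl⟩ ⟨h.le, by simp only; linarith⟩
    obtain ⟨p, hp, e⟩ := h0
    exact hne' p hp e
  · refine ⟨δ, hδ, (starRingEnd ℂ) (I * v), fun x y hx hy hxy => ?_⟩
    have p1 := mem x y hx hy hxy
    rw [conj_mul_re]
    by_contra hcc
    push Not at hcc
    have h0 : (0 : ℝ) ∈ (fun p : ℝ × ℝ => ip (I * v) (c p.2 - c p.1)) '' T :=
      ord.out ⟨_, p1, rfl⟩ ⟨_, p0, rfl⟩ ⟨hcc, h.le⟩
    obtain ⟨p, hp, e⟩ := h0
    exact hne' p hp e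

end Pool.Agent.H77.Sq
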