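import Pool.Agent.H77.Sq.Local

set_option autoImplicit false
open Complex Set Topology Metric

namespace Pool.Agent.H77.Sq

open Pool.Agent.N919.Cusp Pool.Agent.Y535.PEG

/-- near `s` every point of the curve has a support cone of slope `1/6` -/
def Supp (c : ℝ → ℂ) (s : ℝ) : Prop := ∃ ρ > 0, ∀ x, |x - s| < ρ → ∃ n : ℂ, ‖n‖ = 1 ∧
  ∀ y, |y - s| < ρ → ((starRingEnd ℂ) n * (c y - c x)).re ≤ ‖c y - c x‖ / 6

lemma sign_const {f : ℝ → ℝ} (hf : Continuous f) {a b : ℝ} (h : ∀ t ∈ Ioo a b, f t ≠ 0) :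
    (∀ t ∈ Ioo a b, 0 < f t) ∨ ∀ t ∈ Ioo a b, f t < 0 := by
  by_contra hcc
  push Not at hcc
  obtain ⟨⟨t1, h1, k1⟩, t2, h2, k2⟩ := hcc
  have := (isPreconnected_Ioo.image f hf.continuousOn (s := Ioo a b)).ordConnected.out
    ⟨t1, h1, rfl⟩ ⟨t2, h2, rfl⟩ ⟨k1, k2⟩
  obtain ⟨t, ht, e⟩ := this
  exact h t ht e

lemma side {c : ℝ → ℂ} (hc : Continuous c) {s δ : ℝ} (hδ : 0 < δ) {K : Set ℝ} {W : ℂ}
    (hW : ‖W‖ = 1) (τ : ℝ) (hτ : τ = 1 ∨ τ = -1) (hK : ∀ t ∈ Ico 0 δ, s + τ * t ∈ K)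
    (hinj : ∀ x ∈ K, ∀ y ∈ K, c x = c y → x = y)
    (hpos : ∀ t ∈ Ioo 0 δ, 0 < (W * (c (s + τ * t) - c s)).re)
    (hn : ∀ t ∈ Ioo 0 δ, ∃ n ∈ Nr c K (s + τ * t), |(W * n).re| ≤ 11 / 20) :
    ∃ δ' > 0, δ' ≤ δ ∧ ∀ x y, 0 < x → x < y → y < δ' →
      0 < (W * (c (s + τ * y) - c (s + τ * x))).re ∧
      |(W * (c (s + τ * y) - c (s + τ * x))).im| ≤
        99 / 100 * (W * (c (s + τ * y) - c (s + τ * x))).re := by
  have W0 : W ≠ 0 := fun h => by rw [h] at hW; simp at hW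
  have dif : ∀ x y, W * (c (s + τ * y) - c s) - W * (c (s + τ * x) - c s) =
      W * (c (s + τ * y) - c (s + τ * x)) := fun x y => by ring
  have τ0 : τ ≠ 0 := by rcases hτ with h | h <;> rw [h] <;> norm_num
  obtain ⟨δ', h1, h2, h3⟩ := branch (g := fun t => W * (c (s + τ * t) - c s)) hδ
    (by fun_prop) (by simp) (by
      intro x hx y hy hxy
      simp only at hxy
      have e := hinj _ (hK x hx) _ (hK y hy) (by
        have := mul_left_cancel₀ W0 hxy
        exact sub_left_inj.1 this)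
      exact mul_left_cancel₀ τ0 (add_left_cancel e))
    hpos (fun t ht => by
      obtain ⟨n, n1, n2⟩ := hn t ht
      refine ⟨W * n, by rw [norm_mul, hW, n1.1, one_mul], n2, fun z hz => ?_⟩
      simp only [dif]
      rw [ip_mul hW, norm_mul, hW, one_mul]
      exact n1.2 _ (hK z hz))
  refine ⟨δ', h1, h2, fun x y hx hxy hy => ?_⟩
  have := h3 x y hx hxy hy
  simp only [dif] at this
  exact this

theorem local_form {c : ℝ → ℂ} (hc : Continuous c) (hJ : ∀ x y, x < y → y < x + 1 → c x ≠ c y)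
    {s : ℝ} (h : Supp c s) :
    Mon c s ∨ ∃ w κ, 0 < κ ∧ κ < 1 ∧ Aft c s κ w ∧ Bef c s κ w := by
  obtain ⟨ρ, hρ, H⟩ := h
  obtain ⟨ρ1, r0, r1, r2⟩ : ∃ ρ1 > 0, ρ1 < ρ ∧ ρ1 ≤ 1 / 4 :=
    ⟨min (ρ / 2) (1 / 4), by positivity, lt_of_le_of_lt (min_le_left _ _) (by linarith),
      min_le_right _ _⟩
  obtain ⟨K, hKd⟩ : ∃ K, K = Icc (s - ρ1) (s + ρ1) := ⟨_, rfl⟩
  have memK : ∀ x, |x - s| ≤ ρ1 → x ∈ K := fun x hx => by
    rw [hKd]; have := abs_le.1 hx; exact ⟨by linarith, by linarith⟩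
  have memK' : ∀ x ∈ K, |x - s| ≤ ρ1 := fun x hx => by
    rw [hKd] at hx; exact abs_le.2 ⟨by linarith [hx.1], by linarith [hx.2]⟩
  have hinj : ∀ x ∈ K, ∀ y ∈ K, c x = c y → x = y := by
    intro x hx y hy he
    have h1 := abs_le.1 (memK' x hx)
    have h2 := abs_le.1 (memK' y hy)
    rcases lt_trichotomy x y with h | h | h
    · exact absurd he (hJ x y h (by linarith))
    · exact h
    · exact absurd he.symm (hJ y x h (by linarith))
  have hne : ∀ x ∈ K, (Nr c K x).Nonempty := by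
    intro x hx
    obtain ⟨n, n1, n2⟩ := H x ((memK' x hx).trans_lt r1)
    refine ⟨n, n1, fun y hy => ?_⟩
    rw [← conj_mul_re]
    exact n2 y ((memK' y hy).trans_lt r1)
  have sK : s ∈ K := memK s (by simpa using r0.le)
  have hNc : IsCompact (Nr c K s) := by
    have := (nr_closed hc K s s univ isClosed_univ).image continuous_snd
    convert this using 1
    ext n
    constructor
    · intro hn; exact ⟨(s, n), ⟨⟨le_rfl, le_rfl⟩, mem_univ _, hn⟩, rfl⟩
    · rintro ⟨⟨t, m⟩, ⟨h1, -, h3⟩, rfl⟩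
      have : t = s := le_antisymm h1.2 h1.1
      simp only at h3
      rw [this] at h3
      exact h3
  by_cases hv : ∃ v : ℂ, ‖v‖ = 1 ∧ ∀ n ∈ Nr c K s, 1 / 6 < ip v n
  · obtain ⟨v, v1, v2⟩ := hv
    obtain ⟨δ, δ0, hδ⟩ := tube (a := s - ρ1) (b := s + ρ1) hc (V := {n | 1 / 6 < ip v n})
      (isOpen_lt continuous_const (ip_cont continuous_const continuous_id)) v2
    left
    refine mon_of hc (lt_min δ0 r0) (K := K)
      (fun x hx => memK x (hx.le.trans (min_le_right _ _))) hinj v1 fun x hx => ?_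
    have hxK := memK x (hx.le.trans (min_le_right _ _))
    obtain ⟨n, hn⟩ := hne x hxK
    exact ⟨n, hn, hδ x (hKd ▸ hxK) (hx.trans_le (min_le_left _ _)) hn⟩
  push Not at hv
  have r1K : s + ρ1 ∈ K := memK _ (by rw [add_sub_cancel_left, abs_of_pos r0])
  have d0 : c (s + ρ1) - c s ≠ 0 := fun h => by
    have := hinj _ r1K _ sK (sub_eq_zero.1 h)
    linarith
  have dn : 0 < ‖c (s + ρ1) - c s‖ := norm_pos_iff.2 d0
  obtain ⟨w, b, q, w1, b1, wre, q0, bq, ⟨n1, n1N, n1r, n1i⟩, n2, n2N, n2r, n2i⟩ :=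
    frame hNc (hne s sK) (fun n hn => hn.1)
      ((c (s + ρ1) - c s) / (‖c (s + ρ1) - c s‖ : ℂ)) (by
        rw [norm_div, Complex.norm_real, norm_norm, div_self dn.ne']) (fun n hn => by
        have := hn.2 _ r1K
        have e : ip ((c (s + ρ1) - c s) / (‖c (s + ρ1) - c s‖ : ℂ)) n =
            ip n (c (s + ρ1) - c s) / ‖c (s + ρ1) - c s‖ := by
          unfold ip
          rw [Complex.div_ofReal_re, Complex.div_ofReal_im]
          ring
        rw [e, div_le_iff₀ dn]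
        linarith) hv
  obtain ⟨g, hg⟩ : ∃ g : ℝ → ℂ, g = fun t => w * (c t - c s) := ⟨_, rfl⟩
  have gt : ∀ t, g t = w * (c t - c s) := fun t => by rw [hg]
  have gc : Continuous g := by rw [hg]; fun_prop
  have b2 := abs_le.1 b1
  have q1 : 0.986 ≤ q := by
    have : (0.986 : ℝ) ^ 2 ≤ q ^ 2 := by nlinarith
    exact (pow_le_pow_iff_left₀ (by norm_num) q0 two_ne_zero).1 this
  have sup : ∀ t ∈ K, ∀ n ∈ Nr c K s, ip (w * n) (g t) ≤ ‖g t‖ / 6 := by
    intro t ht n hn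
    rw [gt, ip_mul w1, norm_mul, w1, one_mul]
    exact hn.2 t ht
  have gim : ∀ t ∈ K, |(g t).im| ≤ 339 / 1000 * ‖g t‖ := by
    intro t ht
    have k1 := sup t ht n1 n1N
    have k2 := sup t ht n2 n2N
    unfold ip at k1 k2
    rw [n1r, n1i] at k1
    rw [n2r, n2i] at k2
    have h1 := Complex.abs_re_le_norm (g t)
    have h2 : |b * (g t).re| ≤ 1 / 6 * ‖g t‖ := by
      rw [abs_mul]; exact mul_le_mul b1 h1 (abs_nonneg _) (by norm_num)
    have h3 := abs_le.1 h2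
    have h4 : q * |(g t).im| ≤ 1 / 3 * ‖g t‖ := by
      rcases abs_cases (g t).im with ⟨e, -⟩ | ⟨e, -⟩ <;> rw [e] <;> linarith
    have h5 := norm_nonneg (g t)
    have h6 := abs_nonneg (g t).im
    nlinarith
  have gre : ∀ t ∈ K, 94 / 100 * ‖g t‖ ≤ |(g t).re| := by
    intro t ht
    have h1 := gim t ht
    have h2 := norm_sq' (g t)
    have h3 : |(g t).im| ^ 2 ≤ (339 / 1000 * ‖g t‖) ^ 2 := pow_le_pow_left₀ (abs_nonneg _) h1 2
    rw [sq_abs] at h3
    have h4 : (94 / 100 * ‖g t‖) ^ 2 ≤ |(g t).re| ^ 2 := by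
      rw [sq_abs]
      nlinarith [sq_nonneg ‖g t‖]
    exact (pow_le_pow_iff_left₀ (by positivity) (abs_nonneg _) two_ne_zero).1 h4
  have gpos : ∀ t ∈ K, t ≠ s → 0 < ‖g t‖ := by
    intro t ht hts
    rw [gt, norm_mul, w1, one_mul]
    exact norm_pos_iff.2 fun h => hts (hinj _ ht _ sK (sub_eq_zero.1 h))
  have gre0 : ∀ t ∈ K, t ≠ s → (g t).re ≠ 0 := by
    intro t ht hts h
    have h1 := gre t ht
    have h2 := gpos t ht hts
    rw [h, abs_zero] at h1
    linarith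
  -- a lower bound for the real part of a normal
  have low : ∀ m G : ℂ, ‖m‖ = 1 → 0 < ‖G‖ → |G.im| ≤ 339 / 1000 * ‖G‖ →
      94 / 100 * ‖G‖ ≤ |G.re| → -(‖G‖ / 6) - |G.im| ≤ m.re * |G.re| → -(11 / 20) < m.re := by
    intro m G _ hG h1 h2 h3
    by_contra hcc
    push Not at hcc
    have h4 : 0 < |G.re| := by linarith
    nlinarith
  have im1 : ∀ m : ℂ, ‖m‖ = 1 → ∀ x : ℝ, -|x| ≤ m.im * x ∧ m.im * x ≤ |x| := fun m hm x => by
    have h1 : |m.im| ≤ 1 := hm ▸ Complex.abs_im_le_norm m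
    have h2 : |m.im * x| ≤ |x| := by
      rw [abs_mul]; nlinarith [abs_nonneg x]
    exact abs_le.1 h2
  obtain ⟨δ1, δ10, hδ1⟩ := tube (a := s - ρ1) (b := s + ρ1) hc (K := K) (s := s)
    (V := {n | (w * n).re < b + 1 / 100})
    (isOpen_lt (by fun_prop) continuous_const) (fun n hn => by
      have := wre n hn
      simp only [mem_ofPred_eq]
      linarith)
  obtain ⟨δ2, δ20, hδ2⟩ : ∃ δ2 > 0, ∀ x ∈ K, |x - s| < δ2 → (g x).re < 0 → ∀ n ∈ Nr c K x,
      -(11 / 20) < (w * n).re := by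
    by_cases hl : ∃ t0 ∈ K, (g t0).re < 0
    · obtain ⟨t0, ht0, hneg⟩ := hl
      have t0s : t0 ≠ s := by
        rintro rfl
        rw [gt] at hneg
        simp at hneg
      obtain ⟨δ2, h1, h2⟩ := tube (a := s - ρ1) (b := s + ρ1) hc (K := K) (s := s)
        (V := {n | -(11 / 20) < (w * n).re})
        (isOpen_lt continuous_const (by fun_prop)) (fun n hn => by
          have k := sup t0 ht0 n hn
          have wn : ‖w * n‖ = 1 := by rw [norm_mul, w1, hn.1, one_mul]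
          refine low (w * n) (g t0) wn (gpos _ ht0 t0s) (gim _ ht0) (gre _ ht0) ?_
          rw [abs_of_neg hneg]
          have := (im1 _ wn (g t0).im).1
          unfold ip at k
          linarith)
      exact ⟨δ2, h1, fun x hx hxs _ n hn => h2 x (hKd ▸ hx) hxs hn⟩
    · push Not at hl
      exact ⟨1, one_pos, fun x hx _ hneg => absurd hneg (not_lt.2 (hl x hx))⟩
  obtain ⟨δ3, δ30, g1, g2, g3⟩ : ∃ δ3 > 0, δ3 ≤ δ1 ∧ δ3 ≤ δ2 ∧ δ3 ≤ ρ1 :=
    ⟨min δ1 (min δ2 ρ1), by positivity, min_le_left _ _,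
      (min_le_right _ _).trans (min_le_left _ _), (min_le_right _ _).trans (min_le_right _ _)⟩
  have nrm : ∀ t, |t - s| < δ3 → t ≠ s → ∀ n ∈ Nr c K t, |(w * n).re| ≤ 11 / 20 := by
    intro t ht hts n hn
    have tK := memK t (ht.le.trans g3)
    have wn : ‖w * n‖ = 1 := by rw [norm_mul, w1, hn.1, one_mul]
    have up := hδ1 t (hKd ▸ tK) (ht.trans_le g1) hn
    simp only [mem_ofPred_eq] at up
    have lo : -(11 / 20) < (w * n).re := by
      rcases lt_or_gt_of_ne (gre0 t tK hts) with h | h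
      · exact hδ2 t tK (ht.trans_le g2) h n hn
      · refine low (w * n) (g t) wn (gpos _ tK hts) (gim _ tK) (gre _ tK) ?_
        rw [abs_of_pos h]
        have k := hn.2 s sK
        have e : ip n (c s - c t) = -ip (w * n) (g t) := by
          rw [gt, ip_mul w1]
          unfold ip
          simp only [sub_re, sub_im]
          ring
        have e' : ‖c s - c t‖ = ‖g t‖ := by
          rw [gt, norm_mul, w1, one_mul, norm_sub_rev]
        rw [e, e'] at k
        have := (im1 _ wn (g t).im).2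
        unfold ip at k
        linarith
    rw [abs_le]
    constructor <;> linarith
  -- signs on the two branches
  have hre : Continuous fun t => (g t).re := continuous_re.comp gc
  have inR : ∀ t ∈ Ico 0 δ3, s + 1 * t ∈ K := fun t ht => memK _ (by
    rw [one_mul, add_sub_cancel_left, abs_of_nonneg ht.1]; linarith [ht.2])
  have inL : ∀ t ∈ Ico 0 δ3, s + -1 * t ∈ K := fun t ht => memK _ (by
    rw [add_sub_cancel_left, neg_one_mul, abs_neg, abs_of_nonneg ht.1]; linarith [ht.2])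
  have cR : ∀ t ∈ Ioo 0 δ3, |s + 1 * t - s| < δ3 ∧ s + 1 * t ≠ s := fun t ht => by
    rw [one_mul, add_sub_cancel_left, abs_of_pos ht.1]
    exact ⟨ht.2, by linarith [ht.1]⟩
  have cL : ∀ t ∈ Ioo 0 δ3, |s + -1 * t - s| < δ3 ∧ s + -1 * t ≠ s := fun t ht => by
    rw [add_sub_cancel_left, neg_one_mul, abs_neg, abs_of_pos ht.1]
    exact ⟨ht.2, by linarith [ht.1]⟩
  have sgnR : ∃ σ : ℝ, (σ = 1 ∨ σ = -1) ∧
      ∀ t ∈ Ioo 0 δ3, 0 < ((σ : ℂ) * w * (c (s + 1 * t) - c s)).re := by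
    have hz : ∀ t ∈ Ioo 0 δ3, (g (s + 1 * t)).re ≠ 0 := fun t ht =>
      gre0 _ (inR t ⟨ht.1.le, ht.2⟩) (cR t ht).2
    rcases sign_const (f := fun t => (g (s + 1 * t)).re) (hre.comp (by fun_prop)) hz with h | h
    · refine ⟨1, Or.inl rfl, fun t ht => ?_⟩
      have := h t ht
      rw [gt] at this
      simpa [mul_assoc] using this
    · refine ⟨-1, Or.inr rfl, fun t ht => ?_⟩
      have := h t ht
      rw [gt] at this
      rw [mul_assoc, re_ofReal_mul]
      linarith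
  have sgnL : ∃ σ : ℝ, (σ = 1 ∨ σ = -1) ∧
      ∀ t ∈ Ioo 0 δ3, 0 < ((σ : ℂ) * w * (c (s + -1 * t) - c s)).re := by
    have hz : ∀ t ∈ Ioo 0 δ3, (g (s + -1 * t)).re ≠ 0 := fun t ht =>
      gre0 _ (inL t ⟨ht.1.le, ht.2⟩) (cL t ht).2
    rcases sign_const (f := fun t => (g (s + -1 * t)).re) (hre.comp (by fun_prop)) hz with h | h
    · refine ⟨1, Or.inl rfl, fun t ht => ?_⟩
      have := h t ht
      rw [gt] at this
      rw [mul_assoc, re_ofReal_mul]
      linarith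
    · refine ⟨-1, Or.inr rfl, fun t ht => ?_⟩
      have := h t ht
      rw [gt] at this
      rw [mul_assoc, re_ofReal_mul]
      linarith
  have σn : ∀ σ : ℝ, (σ = 1 ∨ σ = -1) → ‖(σ : ℂ) * w‖ = 1 ∧
      ∀ n, |((σ : ℂ) * w * n).re| = |(w * n).re| := by
    intro σ hσ
    rcases hσ with h | h
    · rw [h]; simp [w1]
    · refine ⟨by rw [h]; simp [w1], fun n => ?_⟩
      rw [h, show ((-1 : ℝ) : ℂ) * w * n = -(w * n) by push_cast; ring, neg_re, abs_neg]
  obtain ⟨σ1, s1, pos1⟩ := sgnR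
  obtain ⟨σ2, s2, pos2⟩ := sgnL
  obtain ⟨e1, f1, -, F1⟩ := side hc δ30 (σn σ1 s1).1 1 (Or.inl rfl) inR hinj pos1 (fun t ht => by
    obtain ⟨n, hn⟩ := hne _ (inR t ⟨ht.1.le, ht.2⟩)
    exact ⟨n, hn, by rw [(σn σ1 s1).2]; exact nrm _ (cR t ht).1 (cR t ht).2 n hn⟩)
  obtain ⟨e2, f2, -, F2⟩ := side hc δ30 (σn σ2 s2).1 (-1) (Or.inr rfl) inL hinj pos2
    (fun t ht => by
      obtain ⟨n, hn⟩ := hne _ (inL t ⟨ht.1.le, ht.2⟩)
      exact ⟨n, hn, by rw [(σn σ2 s2).2]; exact nrm _ (cL t ht).1 (cL t ht).2 n hn⟩)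
  have R : ∀ x y, s < x → x < y → y < s + e1 → 0 < ((σ1 : ℂ) * w * (c y - c x)).re ∧
      |((σ1 : ℂ) * w * (c y - c x)).im| ≤ 99 / 100 * ((σ1 : ℂ) * w * (c y - c x)).re := by
    intro x y hx hxy hy
    have := F1 (x - s) (y - s) (by linarith) (by linarith) (by linarith)
    simpa using this
  have Lf : ∀ x y, s - e2 < x → x < y → y < s → 0 < ((σ2 : ℂ) * w * (c x - c y)).re ∧
      |((σ2 : ℂ) * w * (c x - c y)).im| ≤ 99 / 100 * ((σ2 : ℂ) * w * (c x - c y)).re := by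
    intro x y hx hxy hy
    have := F2 (s - y) (s - x) (by linarith) (by linarith) (by linarith)
    simpa using this
  have W0 : ∀ σ : ℝ, (σ = 1 ∨ σ = -1) → (σ : ℂ) * w ≠ 0 := fun σ hσ h => by
    have := (σn σ hσ).1
    rw [h] at this
    simp at this
  by_cases hσ : σ1 = σ2
  · right
    refine ⟨(σ1 : ℂ) * w, 99 / 100, by norm_num, by norm_num, ⟨W0 _ s1, e1, f1, fun x y h1 h2 h3 =>
      (R x y h1 h2 h3).2⟩, ⟨W0 _ s1, e2, f2, fun x y h1 h2 h3 => ?_⟩⟩
    rw [hσ]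
    exact (Lf x y h1 h2 h3).2
  · left
    have hσ' : σ2 = -σ1 := by
      rcases s1 with h | h
      · rcases s2 with h' | h'
        · exact absurd (h.trans h'.symm) hσ
        · rw [h, h']
      · rcases s2 with h' | h'
        · rw [h, h', neg_neg]
        · exact absurd (h.trans h'.symm) hσ
    have R0 : ∀ y, s < y → y < s + min (min e1 e2) δ3 → 0 < ((σ1 : ℂ) * w * (c y - c s)).re := by
      intro y h1 h2
      have := pos1 (y - s) ⟨by linarith, by
        have := min_le_right (min e1 e2) δ3; linarith⟩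
      simpa using this
    have L0 : ∀ y, s - min (min e1 e2) δ3 < y → y < s →
        0 < ((σ1 : ℂ) * w * (c s - c y)).re := by
      intro y h1 h2
      have := pos2 (s - y) ⟨by linarith, by
        have := min_le_right (min e1 e2) δ3; linarith⟩
      rw [hσ'] at this
      rw [show (σ1 : ℂ) * w * (c s - c y) = ((-σ1 : ℝ) : ℂ) * w * (c y - c s) by push_cast; ring]
      simpa using this
    refine ⟨min (min e1 e2) δ3, by positivity, (σ1 : ℂ) * w, fun x y hx hy hxy => ?_⟩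
    have m1 : min (min e1 e2) δ3 ≤ e1 := (min_le_left _ _).trans (min_le_left _ _)
    have m2 : min (min e1 e2) δ3 ≤ e2 := (min_le_left _ _).trans (min_le_right _ _)
    have hx' := abs_lt.1 hx
    have hy' := abs_lt.1 hy
    rcases lt_trichotomy x s with h | h | h
    · rcases lt_trichotomy y s with h' | h' | h'
      · have := (Lf x y (by linarith) hxy h').1
        rw [hσ'] at this
        rw [show (σ1 : ℂ) * w * (c y - c x) = ((-σ1 : ℝ) : ℂ) * w * (c x - c y) by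
          push_cast; ring]
        exact this
      · rw [h']; exact L0 x (by linarith) h
      · have a1 := L0 x (by linarith) h
        have a2 := R0 y h' (by linarith)
        rw [show (σ1 : ℂ) * w * (c y - c x) = (σ1 : ℂ) * w * (c s - c x) +
          (σ1 : ℂ) * w * (c y - c s) by ring, add_re]
        linarith
    · rw [h]; exact R0 y (by linarith) (by linarith)
    · exact (R x y h hxy (by linarith)).1

end Pool.Agent.H77.Sq
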